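import Pool.Agent.Helper53.CL.Nae
import Pool.Agent.Helper52.ES.Spec2

set_option autoImplicit false

/-! # Cook's theorem with visible certificates -/

namespace Pool.Agent.Helper53.ES

open Pool.Agent.Helper53.CL
open Pool.Agent.Helper58 Function
open Pool.Agent.Helper52.Grid (CNF)

theorem cw_cnf {P : List Ins} {B : ℕ} (hB0 : 0 < B) (hB : ∀ q < B, (ins P q).Bd B B) {M L n : ℕ}
    (hL : M < L) (W : List Bool) (z : List Bool) (hzn : z.length = n) :
    (((step P)^[M] (0, s0 z W)).2 0)[0]? ≠ some false ↔
      ∃ Y, (∀ c ∈ cnf P B M L n W, Sat Y c) ∧ ∀ i < n, Y (cell 0 1 i 2) = z.getD i false := by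
  constructor
  · intro hf
    let c : ℕ → ℕ × Stk := fun t => (step P)^[t] (0, s0 z W)
    have hc : ∀ t, c (t + 1) = step P (c t) := fun t => iterate_succ_apply' _ _ _
    refine ⟨Yr c, ?_, ?_⟩
    · have hfix : ∀ k L l, s0 z W k = l → ∀ r ∈ initFix k L l, Sat (Yr c) r := by
        intro k L l hl
        rw [sat_initFix]
        refine ⟨fun i hi => ?_, fun i hi => ?_⟩
        · rw [Yr_cell]
          show sy (s0 z W k)[i]? = _
          rw [hl]
        · rw [Yr_cell]
          show sy (s0 z W k)[l.length + i]? = _
          rw [hl, List.getElem?_eq_none (by omega)]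
          rfl
      unfold cnf
      simp only [List.mem_append, List.mem_cons, or_imp, forall_and, forall_eq]
      refine ⟨⟨?_, ?_, ?_⟩, hfix 0 L _ rfl, ?_, hfix 2 L _ rfl, ?_⟩
      · rw [sat_unit, Yr_ctl]; rfl
      · rw [sat_nunit, Yr_cell]
        intro h
        apply hf
        show ((c M).2 0)[0]? = some false
        rcases h1 : ((c M).2 0)[0]? with _ | _ | _ <;> rw [h1] at h <;> simp [sy] at h ⊢
      · intro r hr
        unfold tab at hr
        rw [List.mem_flatMap] at hr
        obtain ⟨t, _, hr⟩ := hr
        rw [List.mem_flatMap] at hr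
        obtain ⟨q, _, hr⟩ := hr
        exact rules_run hc B t q L r hr
      · rw [sat_initFree]
        refine ⟨fun i hi => ?_, fun i hi => ?_⟩
        · rw [Yr_cell, Yr_cell]
          show sy (z)[i]? = 1 ∨ sy z[i]? = 2
          rw [List.getElem?_eq_getElem (by omega)]
          cases z[i] with
          | true => exact Or.inr rfl
          | false => exact Or.inl rfl
        · rw [Yr_cell]
          show sy z[n + i]? = 0
          rw [List.getElem?_eq_none (by omega)]
          rfl
      · intro r hr
        rw [List.mem_flatMap] at hr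
        obtain ⟨j, _, hr⟩ := hr
        exact hfix (j + 3) L [] (by simp [s0]) r hr
    · intro i hi
      rw [Bool.eq_iff_iff, Yr_cell]
      show sy z[i]? = 2 ↔ _
      rw [List.getD_eq_getElem?_getD, List.getElem?_eq_getElem (by omega)]
      cases z[i] <;> simp [sy]
  · rintro ⟨Y, hY, hYz⟩
    unfold cnf at hY
    simp only [List.mem_append, List.mem_cons, or_imp, forall_and, forall_eq] at hY
    obtain ⟨⟨h0, hM, htab⟩, hi0, hi1, hi2, hi3⟩ := hY
    rw [sat_unit] at h0
    rw [sat_nunit] at hM
    rw [sat_initFree] at hi1
    have hz : ∀ i < L, Y (cell 0 1 i (sy z[i]?)) = true := by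
      intro i hi
      by_cases hin : i < n
      · have e : z[i]? = some (Y (cell 0 1 i 2)) := by
          rw [hYz i hin, List.getD_eq_getElem?_getD, List.getElem?_eq_getElem (by omega)]
          rfl
        rw [e]
        cases hy : Y (cell 0 1 i 2) with
        | true => exact hy
        | false =>
          rcases hi1.1 i hin with h | h
          · exact h
          · rw [h] at hy; exact absurd hy (by simp)
      · rw [List.getElem?_eq_none (by omega)]
        have := hi1.2 (i - n) (by omega)
        rwa [show n + (i - n) = i by omega] at this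
    have key : ∀ t ≤ M, ((step P)^[t] (0, s0 z W)).1 < B ∧ Facts Y B L t ((step P)^[t] (0, s0 z W)) := by
      intro t
      induction t with
      | zero =>
        intro _
        refine ⟨hB0, h0, ?_⟩
        intro k hk i hi
        show Y (cell 0 k i (sy (s0 z W k)[i]?)) = true
        unfold s0
        by_cases hk0 : k = 0
        · subst hk0
          rw [if_pos rfl]
          exact facts_initFix hi0 i (by omega)
        · rw [if_neg hk0]
          by_cases hk1 : k = 1
          · subst hk1
            rw [if_pos rfl]
            exact hz i (by omega)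
          · rw [if_neg hk1]
            by_cases hk2 : k = 2
            · subst hk2
              rw [if_pos rfl]
              exact facts_initFix hi2 i (by omega)
            · rw [if_neg hk2]
              obtain ⟨j, rfl⟩ : ∃ j, k = j + 3 := ⟨k - 3, by omega⟩
              refine facts_initFix (fun c hc => ?_) i (by omega)
              apply hi3
              rw [List.mem_flatMap]
              exact ⟨j, List.mem_range.2 (by omega), hc⟩
      | succ t ih =>
        intro ht
        obtain ⟨h1, h2⟩ := ih (by omega)
        rw [iterate_succ_apply']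
        refine ⟨step_bd (hB _ h1), facts_step h2 (hB _ h1) (by omega) ?_⟩
        intro r hr
        apply htab
        unfold tab
        rw [List.mem_flatMap]
        refine ⟨t, List.mem_range.2 (by omega), ?_⟩
        rw [List.mem_flatMap]
        exact ⟨_, List.mem_range.2 h1, hr⟩
    intro hf
    have h1 := (key M le_rfl).2.2 0 hB0 0 (by omega)
    rw [hf] at h1
    exact hM h1

/-- Cook's theorem, where the atoms of the certificate are known (in reversed order). -/
theorem cw_cook {α : Type} [Enc α] {V : α × List Bool → Bool} (hV : PTf V) {n : α → ℕ}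
    (hn : PTf n) : ∃ f : α → List Cl, PTf f ∧ ∀ a, ∀ z : List Bool, z.length = n a →
      (V (a, z.reverse) = true ↔
        ∃ Y, (∀ c ∈ f a, Sat Y c) ∧ ∀ i < n a, Y (cell 0 1 i 2) = z.getD i false) := by
  rw [ptf_iff] at hV
  obtain ⟨-, c, w, T, -, ⟨k, hk⟩, hr⟩ := hV
  let C : Cmd := Cmd.seq (tr 1 0 (fun b => true :: (enc b).code)) (Cmd.seq (mv 2 0) (c 0))
  obtain ⟨B, hB0, hB⟩ := exists_bound (prog C) 0
  let W : α → List Bool := fun a => (true :: (enc a).code).reverse
  let M : α → ℕ := fun a => len C * ((n a + 1) + ((sz a + 2) + (sz a + 4 * n a + 3) ^ k) + 1)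
  have hW : PTf W := by
    have : PTf (fun a : α => (enc a).code) := PTf.code PTf.id
    show PTf (fun a : α => (true :: (enc a).code).reverse)
    fun_prop
  have hM : PTf M := by
    have h1 : PTf (fun a : α => sz a) := ptf_sz PTf.id
    have h2 : PTf (fun a : α => (sz a + 4 * n a + 3) ^ k) := ptf_pow (by fun_prop) k
    show PTf (fun a : α => len C * ((n a + 1) + ((sz a + 2) + (sz a + 4 * n a + 3) ^ k) + 1))
    fun_prop
  refine ⟨fun a => cnf (prog C) B (M a) (M a + 1) (n a) (W a),
    ptf_cnf _ _ hM (by fun_prop) hn hW, ?_⟩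
  intro a z hz
  beta_reduce
  rw [← cw_cnf hB0 hB (by omega) (W a) z hz]
  have key : ((step (prog C))^[M a] (0, s0 z (W a))).2 0 = (enc (V (a, z.reverse))).code := by
    have h1 := tr_exec (k := 1) (l := 0) (by omega) (fun b => true :: (enc b).code) z
      (s0 z (W a)) rfl
    rw [s0_tr] at h1
    have h2 := mv_exec (k := 2) (l := 0) (by omega) (W a)
      (fun k => if k = 0 then (enc z.reverse).code else if k = 2 then W a else []) rfl
    have e2 : update (update (fun k => if k = 0 then (enc z.reverse).code else
          if k = 2 then W a else [])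
        0 ((W a).reverse ++ (fun k => if k = 0 then (enc z.reverse).code
          else if k = 2 then W a else [] : Stk) 0)) 2 []
        = st4 (fun _ => []) 0 (enc (a, z.reverse)).code [] [] [] := by
      funext j
      by_cases hj2 : j = 2
      · subst hj2; rw [update_self, st4_2 (fun _ => []) 0]
      · rw [update_of_ne hj2]
        by_cases hj0 : j = 0
        · subst hj0
          rw [update_self, st4_0]
          simp only [if_true, W, List.reverse_reverse]
          rfl
        · rw [update_of_ne hj0]
          simp only [if_neg hj0, if_neg hj2]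
          unfold st4
          split_ifs <;> rfl
    rw [e2] at h2
    obtain ⟨t, ht, h3⟩ := hr 0 (fun _ => []) (a, z.reverse)
    have h4 := exec_seq h1 (exec_seq h2 h3)
    have h5 := prog_exec (M := M a) h4 (by
      refine Nat.mul_le_mul_left _ ?_
      have h6 := hk (a, z.reverse)
      have h7 : sz (a, z.reverse) + 1 ≤ sz a + 4 * n a + 3 := by
        rw [sz_pair]
        have := sz_bits_le z.reverse
        rw [List.length_reverse, hz] at this
        omega
      have h8 := Nat.pow_le_pow_left h7 k
      have h9 : (W a).length = sz a + 1 := by simp [W, sz]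
      rw [h9, hz]
      omega)
    rw [h5]
    exact st4_0 (fun _ => []) 0 _ [] [] []
  have hb : ∀ b : Bool, ((enc b).code)[0]? ≠ some false ↔ b = true := by
    intro b
    cases b
    · simp [enc_false, DTree.code]
    · simp [enc_true, DTree.code]
  rw [key, hb]

/-- the clause with numbered variables, from `n` on -/
def cwC (n : ℕ) (c : Cl) : List (ℕ × Bool) :=
  [(n + an c.1.1, c.1.2), (n + an c.2.1.1, c.2.1.2), (n + an c.2.2.1, c.2.2.2)]

/-- variable `q.2` is equal to the atom of the certificate number `q.1` -/
def cwE (n : ℕ) (q : ℕ × ℕ) : List (List (ℕ × Bool)) :=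
  [[(q.2, true), (n + an (cell 0 1 q.1 2), false)],
    [(q.2, false), (n + an (cell 0 1 q.1 2), true)]]

/-- the formula -/
def cwF (n : ℕ) (C : List Cl) : CNF :=
  C.map (cwC n) ++ (List.range n).reverse.zipIdx.flatMap (cwE n)

@[fun_prop] theorem cw_ptf_pr {γ : Type} [Enc γ] {a b : γ → ℕ} (ha : PTf a) (hb : PTf b) :
    PTf (fun x => pr (a x) (b x)) := by unfold pr; fun_prop

@[fun_prop] theorem cw_ptf_an {γ : Type} [Enc γ] {p : γ → Atom} (hp : PTf p) :
    PTf (fun x => an (p x)) := by unfold an; fun_prop

theorem cw_ptf_F {γ : Type} [Enc γ] {n : γ → ℕ} {C : γ → List Cl} (hn : PTf n) (hC : PTf C) :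
    PTf (fun x => cwF (n x) (C x)) := by
  unfold cwF cwC cwE
  fun_prop

theorem cw_sat_F (n : ℕ) (C : List Cl) (a : ℕ → Bool) : (cwF n C).Sat a ↔
    (∀ c ∈ C, Sat (fun p => a (n + an p)) c) ∧
      ∀ i < n, a i = a (n + an (cell 0 1 (n - 1 - i) 2)) := by
  unfold CNF.Sat cwF
  simp only [List.mem_append, or_imp, forall_and]
  refine and_congr ?_ ?_
  · constructor
    · intro h c hc
      obtain ⟨l, hl, h1⟩ := h _ (List.mem_map_of_mem hc)
      unfold cwC at hl
      simp only [List.mem_cons, List.not_mem_nil, or_false] at hl
      rcases hl with rfl | rfl | rfl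
      · exact Or.inl h1
      · exact Or.inr (Or.inl h1)
      · exact Or.inr (Or.inr h1)
    · intro h c' hc'
      obtain ⟨c, hc, rfl⟩ := List.mem_map.1 hc'
      rcases h c hc with h1 | h1 | h1
      · exact ⟨_, List.mem_cons_self, h1⟩
      · exact ⟨_, List.mem_cons_of_mem _ List.mem_cons_self, h1⟩
      · exact ⟨_, List.mem_cons_of_mem _ (List.mem_cons_of_mem _ List.mem_cons_self), h1⟩
  · have hmem : ∀ j i, (j, i) ∈ (List.range n).reverse.zipIdx ↔ i < n ∧ j = n - 1 - i := by
      intro j i
      rw [List.mem_zipIdx_iff_getElem?]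
      simp only
      by_cases hi : i < n
      · rw [List.getElem?_reverse (by simpa using hi), List.length_range,
          List.getElem?_range (by omega)]
        simp only [Option.some.injEq]
        exact ⟨fun h => ⟨hi, h.symm⟩, fun h => h.2.symm⟩
      · rw [List.getElem?_eq_none (by simpa using hi)]
        constructor
        · intro h
          exact absurd h (by simp)
        · rintro ⟨h, -⟩
          exact absurd h hi
    constructor
    · intro h i hi
      have hm := (hmem (n - 1 - i) i).2 ⟨hi, rfl⟩
      obtain ⟨l1, hl1, h1⟩ := h [(i, true), (n + an (cell 0 1 (n - 1 - i) 2), false)]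
        (List.mem_flatMap.2 ⟨_, hm, List.mem_cons_self⟩)
      obtain ⟨l2, hl2, h2⟩ := h [(i, false), (n + an (cell 0 1 (n - 1 - i) 2), true)]
        (List.mem_flatMap.2 ⟨_, hm, List.mem_cons_of_mem _ List.mem_cons_self⟩)
      simp only [List.mem_cons, List.not_mem_nil, or_false] at hl1 hl2
      rcases hl1 with rfl | rfl <;> rcases hl2 with rfl | rfl <;> simp_all
    · intro h c hc
      obtain ⟨⟨j, i⟩, hm, hc⟩ := List.mem_flatMap.1 hc
      obtain ⟨hi, rfl⟩ := (hmem j i).1 hm
      have h1 := h i hi
      unfold cwE at hc
      simp only [List.mem_cons, List.not_mem_nil, or_false] at hc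
      rcases hc with rfl | rfl
      · cases h2 : a i
        · exact ⟨_, List.mem_cons_of_mem _ List.mem_cons_self, by rw [← h1, h2]⟩
        · exact ⟨_, List.mem_cons_self, h2⟩
      · cases h2 : a i
        · exact ⟨_, List.mem_cons_self, h2⟩
        · exact ⟨_, List.mem_cons_of_mem _ List.mem_cons_self, by rw [← h1, h2]⟩

theorem cw : Pool.Agent.Helper52.ES.specCW := by
  intro γ _ V m hV hm
  obtain ⟨f, hf, h⟩ := cw_cook hV hm
  refine ⟨fun x => cwF (m x) (f x), cw_ptf_F hm hf, ?_⟩
  intro x w hw
  have h1 := h x w.reverse (by rw [List.length_reverse, hw])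
  rw [List.reverse_reverse] at h1
  rw [h1]
  have hrev : ∀ i < m x, w.reverse.getD (m x - 1 - i) false = w.getD i false := by
    intro i hi
    rw [List.getD_eq_getElem?_getD, List.getD_eq_getElem?_getD,
      List.getElem?_reverse (by omega), hw]
    congr 2
    omega
  constructor
  · rintro ⟨Y, hY, hYw⟩
    have hinj : Injective (fun p : Atom => m x + an p) := fun p q hpq => an_inj (by
      simp only at hpq
      omega)
    let a : ℕ → Bool := fun v => if v < m x then w.getD v false else
      extend (fun p : Atom => m x + an p) Y (fun _ => false) v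
    have ha1 : ∀ i < m x, a i = w.getD i false := fun i hi => if_pos hi
    have ha2 : ∀ p, a (m x + an p) = Y p := by
      intro p
      have h2 : ¬ (m x + an p < m x) := by omega
      show (if m x + an p < m x then _ else _) = _
      rw [if_neg h2]
      exact hinj.extend_apply _ _ p
    refine ⟨a, ?_, ha1⟩
    rw [cw_sat_F]
    have h3 : (fun p => a (m x + an p)) = Y := funext ha2
    rw [h3]
    refine ⟨hY, ?_⟩
    intro i hi
    rw [ha2, hYw _ (by omega), ha1 i hi, hrev i hi]
  · rintro ⟨a, ha, haw⟩
    rw [cw_sat_F] at ha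
    refine ⟨fun p => a (m x + an p), ha.1, ?_⟩
    intro i hi
    beta_reduce
    have h2 := ha.2 (m x - 1 - i) (by omega)
    rw [show m x - 1 - (m x - 1 - i) = i by omega] at h2
    rw [← h2, haw _ (by omega), ← hrev _ (by omega)]
    congr 1
    omega

end Pool.Agent.Helper53.ES
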